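import Pool.Agent.H891FSS.FD_RES
import Pool.Agent.H891FSS.FE_RES
import Pool.Agent.H891FSS.FU_SGE

set_option autoImplicit false

namespace Pool.Agent.Results.MP_41797f_co.SubcubicOrBipartiteWithSmall

open Pool.Agent.H891WLC

/-- `p` is a crossing-free straight-line drawing of `G`: distinct vertices are distinct points, every
edge is the open segment between its ends, no edge contains (the image of) a vertex, and distinct
edges are disjoint. -/
def Drawing {V : Type} (G : SimpleGraph V) (p : V → ℝ × ℝ) : Prop :=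
  Function.Injective p ∧
    (∀ u v w : V, G.Adj u v → p w ∉ openSegment ℝ (p u) (p v)) ∧
    (∀ u v x y : V, G.Adj u v → G.Adj x y → s(u, v) ≠ s(x, y) →
      Disjoint (openSegment ℝ (p u) (p v)) (openSegment ℝ (p x) (p y)))

/-- `G` is planar (it has a straight-line crossing-free drawing) -/
def Planar {V : Type} (G : SimpleGraph V) : Prop := ∃ p : V → ℝ × ℝ, Drawing G p

/-- maximum degree at most `D` -/
def MaxDegree {V : Type} (G : SimpleGraph V) (D : ℕ) : Prop := ∀ v, Set.ncard {x | G.Adj v x} ≤ D

theorem drawing_of_plane {V : Type} {G : SimpleGraph V} {p : V → ℝ × ℝ} (h : Plane G p) :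
    Drawing G p := by
  obtain ⟨hinj, hv, he⟩ := h
  have hend : ∀ u v : V, u ≠ v → p u ∉ openSegment ℝ (p u) (p v) := by
    intro u v huv hmem
    exact huv (hinj (left_mem_openSegment_iff.mp hmem))
  have hend' : ∀ u v : V, u ≠ v → p v ∉ openSegment ℝ (p u) (p v) := by
    intro u v huv hmem
    rw [openSegment_symm] at hmem
    exact hend v u huv.symm hmem
  refine ⟨hinj, ?_, ?_⟩
  · intro u v w huv hmem
    by_cases h1 : w = u
    · subst h1; exact hend _ _ huv.ne hmem
    · by_cases h2 : w = v
      · subst h2; exact hend' _ _ huv.ne hmem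
      · exact hv u v w huv h1 h2 (openSegment_subset_segment ℝ _ _ hmem)
  · intro u v x y huv hxy hne
    rw [Set.disjoint_left]
    intro z hz1 hz2
    obtain ⟨w, hw1, hw2, hzw⟩ := he u v x y huv hxy hne z
      (openSegment_subset_segment ℝ _ _ hz1) (openSegment_subset_segment ℝ _ _ hz2)
    rcases hw1 with rfl | rfl
    · rw [hzw] at hz1; exact hend _ _ huv.ne hz1
    · rw [hzw] at hz1; exact hend' _ _ huv.ne hz1

theorem plane_of_drawing {V : Type} {G : SimpleGraph V} {p : V → ℝ × ℝ} (h : Drawing G p) :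
    Plane G p := by
  obtain ⟨hinj, hv, he⟩ := h
  have hcase : ∀ u v : V, ∀ z ∈ segment ℝ (p u) (p v),
      z = p u ∨ z = p v ∨ z ∈ openSegment ℝ (p u) (p v) := by
    intro u v z hz
    rw [← insert_endpoints_openSegment] at hz
    simpa using hz
  refine ⟨hinj, ?_, ?_⟩
  · intro u v w huv h1 h2 hmem
    rcases hcase u v _ hmem with h | h | h
    · exact h1 (hinj h)
    · exact h2 (hinj h)
    · exact hv u v w huv h
  · intro u v x y huv hxy hne z hz1 hz2
    rcases hcase u v z hz1 with h1 | h1 | h1
    · rcases hcase x y z hz2 with h2 | h2 | h2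
      · exact ⟨u, Or.inl rfl, Or.inl (hinj (h1.symm.trans h2)), h1⟩
      · exact ⟨u, Or.inl rfl, Or.inr (hinj (h1.symm.trans h2)), h1⟩
      · exact absurd (h1 ▸ h2) (hv x y u hxy)
    · rcases hcase x y z hz2 with h2 | h2 | h2
      · exact ⟨v, Or.inr rfl, Or.inl (hinj (h1.symm.trans h2)), h1⟩
      · exact ⟨v, Or.inr rfl, Or.inr (hinj (h1.symm.trans h2)), h1⟩
      · exact absurd (h1 ▸ h2) (hv x y v hxy)
    · rcases hcase x y z hz2 with h2 | h2 | h2
      · exact absurd (h2 ▸ h1) (hv u v x huv)
      · exact absurd (h2 ▸ h1) (hv u v y huv)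
      · exact absurd h2 (Set.disjoint_left.mp (he u v x y huv hxy hne) h1)

/-- `G` and `H` have a simultaneous geometric embedding without mapping: some point set `P` supports a
crossing-free straight-line drawing of each of them that uses exactly the points of `P`. -/
def SGENoMap {V W : Type} (G : SimpleGraph V) (H : SimpleGraph W) : Prop :=
  ∃ (P : Set (ℝ × ℝ)) (p : V → ℝ × ℝ) (r : W → ℝ × ℝ),
    Drawing G p ∧ Drawing H r ∧ Set.range p = P ∧ Set.range r = P

/-- at most `t` vertices of `H` are not isolated -/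
def FewNonIsolated {W : Type} (H : SimpleGraph W) (t : ℝ) : Prop :=
  ∃ N : Finset W, (∀ x y, H.Adj x y → x ∈ N) ∧ (N.card : ℝ) ≤ t

theorem sge_of {V W : Type} [Fintype V] [Fintype W] (G : SimpleGraph V) (H : SimpleGraph W)
    (hVW : Fintype.card V = Fintype.card W) (K : ℝ) (hK : 0 < K) (S : Finset V)
    (hcard : (Fintype.card V : ℝ) ≤ K * S.card)
    (hS : ∀ P : Finset (ℝ × ℝ), P.card = S.card →
        ∃ q : V → ℝ × ℝ, Plane G q ∧ ∀ z : ℝ × ℝ, (∃ s ∈ S, q s = z) ↔ z ∈ P)
    (hH : Planar H) (hN : FewNonIsolated H (1 / K * Fintype.card V)) : SGENoMap G H := by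
  classical
  obtain ⟨N, hN1, hN2⟩ := hN
  obtain ⟨r0, hr0⟩ := hH
  have hNS : N.card ≤ S.card := by
    have h1 : 1 / K * (Fintype.card V : ℝ) ≤ S.card := by
      rw [one_div, inv_mul_le_iff₀ hK]
      exact hcard
    exact_mod_cast le_trans hN2 h1
  obtain ⟨q, r, hq, hr, hqr⟩ := FU_SGE G H hVW S hS ⟨r0, plane_of_drawing hr0⟩ N hN1 hNS
  exact ⟨Set.range r, q, r, drawing_of_plane hq, drawing_of_plane hr, hqr, rfl⟩

/-- **Pairs of `n`-vertex planar graphs, the first of maximum degree at most three (or bipartite of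
maximum degree at most `D`), the second with at most `c n` non-isolated vertices, have a
simultaneous geometric embedding without mapping.** -/
theorem result :
    (∃ c : ℝ, 0 < c ∧ ∀ (V W : Type) [Fintype V] [Fintype W] (G : SimpleGraph V) (H : SimpleGraph W),
      Fintype.card V = Fintype.card W → Planar G → MaxDegree G 3 → Planar H →
        FewNonIsolated H (c * Fintype.card V) → SGENoMap G H) ∧
    (∀ D : ℕ, ∃ c : ℝ, 0 < c ∧
      ∀ (V W : Type) [Fintype V] [Fintype W] (G : SimpleGraph V) (H : SimpleGraph W),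
        Fintype.card V = Fintype.card W → Planar G → G.Colorable 2 → MaxDegree G D → Planar H →
          FewNonIsolated H (c * Fintype.card V) → SGENoMap G H) := by
  classical
  constructor
  · refine ⟨1 / 40, by norm_num, ?_⟩
    intro V W _ _ G H hVW hP hG hH hN
    obtain ⟨p, hp⟩ := hP
    obtain ⟨S, -, hcard, -, hfree⟩ := FD_RES G ⟨p, plane_of_drawing hp⟩ hG Finset.univ
    exact sge_of G H hVW 40 (by norm_num) S (by simpa using hcard) hfree hH hN
  · intro D
    have hpos : (0 : ℝ) < 1 + D + D * D := by positivity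
    refine ⟨1 / (1 + D + D * D), by positivity, ?_⟩
    intro V W _ _ G H hVW hP hc hG hH hN
    obtain ⟨p, hp⟩ := hP
    obtain ⟨C⟩ := hc
    have hb : ∀ x y, G.Adj x y → (x ∈ {v | C v = 0} ↔ y ∉ {v | C v = 0}) := by
      intro x y hxy
      have hne := C.valid hxy
      simp only [Set.mem_ofPred_eq]
      generalize C x = a at *
      generalize C y = b at *
      revert a b
      decide
    obtain ⟨S, -, hcard, -, hfree⟩ :=
      FE_RES G ⟨p, plane_of_drawing hp⟩ {v | C v = 0} hb D hG Finset.univ
    exact sge_of G H hVW (1 + D + D * D) hpos S (by simpa using hcard) hfree hH hN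

end Pool.Agent.Results.MP_41797f_co.SubcubicOrBipartiteWithSmall
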